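import Pool.Agent.Helper53.AE.GoalsD

set_option autoImplicit false

open scoped ComplexOrder Topology
open Filter TopologicalSpace

namespace Pool.Agent.Helper29.AE

open Pool.Agent.Helper53.AE

theorem t : S_CPK := by
  classical
  intro A D _ _ φ hφ n K hK
  obtain ⟨r, W, -, hW⟩ := hK
  rcases Nat.eq_zero_or_pos n with hn | hn
  · subst hn
    exact ⟨0, fun j => j.elim0, fun j => j.elim0, fun s => s.elim0⟩
  · let i0 : Fin n := ⟨0, hn⟩
    let Y : Fin r → CStarMatrix (Fin n) (Fin n) A := fun j =>
      CStarMatrix.ofMatrix (fun k s => if k = i0 then W j s else 0)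
    have hY : ∀ j s t, (star (Y j) * Y j) s t = star (W j s) * W j t := by
      intro j s t
      rw [CStarMatrix.mul_apply]
      rw [Finset.sum_eq_single i0]
      · simp [Y, CStarMatrix.star_apply, CStarMatrix.ofMatrix_apply]
      · intro b _ hb
        simp [Y, CStarMatrix.star_apply, CStarMatrix.ofMatrix_apply, hb]
      · simp
    choose z hz using fun j => hφ n (Y j)
    have h1 : ∀ j s t, φ (star (W j s) * W j t) = ∑ l, star (z j l s) * z j l t := by
      intro j s t
      have h2 := congrFun (congrFun (hz j) s) t
      rw [CStarMatrix.mul_apply] at h2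
      rw [CStarMatrix.map_apply, hY] at h2
      rw [h2]
      rfl
    refine ⟨r * n, fun p s => z (finProdFinEquiv.symm p).1 (finProdFinEquiv.symm p).2 s,
      fun _ _ => trivial, ?_⟩
    intro s t
    show φ (K s t) = _
    rw [hW, map_sum]
    simp_rw [h1]
    rw [← Fintype.sum_prod_type' (f := fun j l => star (z j l s) * z j l t)]
    exact (Equiv.sum_comp finProdFinEquiv.symm
      (fun x : Fin r × Fin n => star (z x.1 x.2 s) * z x.1 x.2 t)).symm

end Pool.Agent.Helper29.AE
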